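import Pool.Agent.Run7.h611.TwoNumbers

/-!
The equality `#₂ M = dim H(M; ℤ/2)` fails for some connected compact Riemannian symmetric space.

Idea of the proof. Let `S³` be the group of unit quaternions, `X = S³ × S³ × S³`,
`C₁ = {(±1, ±1, 1)}` and `C₂ = {(a, b, c) : a, b, c = ±1, abc = 1}`. The quotients `X / C₁` and
`X / C₂` are connected compact Riemannian symmetric spaces (with the metric and the symmetries
coming from the product of round spheres). The map `(x, y, z) ↦ (x, y, xyz)` induces a
homeomorphism `X / C₂ ≃ X / C₁`, so the two spaces have the same total mod 2 Betti number.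
But `#₂ (X / C₁) ≥ 16` and `#₂ (X / C₂) ≤ 8`.
-/

open scoped Manifold ContDiff
open Run7.h611

namespace Pool.Agent.Results.MP_efd99a_gt.TwoNumberVsBetti

/-- It is not true that the two-number of every connected compact Riemannian symmetric space is
equal to its total mod 2 Betti number. -/
theorem result :
    ¬ ∀ (E : Type) [NormedAddCommGroup E] [NormedSpace ℝ E] [FiniteDimensional ℝ E]
        (M : Type) [TopologicalSpace M] [T2Space M] [CompactSpace M] [ConnectedSpace M]
        [ChartedSpace E M] [IsManifold 𝓘(ℝ, E) ∞ M] (S : RiemannianSymmetricSpace E M),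
        S.twoNumber = totalBettiTwo M := by
  intro h
  have h1 : (symQuot C1).twoNumber = totalBettiTwo (X3 ⧸ C1) := h EE (X3 ⧸ C1) (symQuot C1)
  have h2 : (symQuot C2).twoNumber = totalBettiTwo (X3 ⧸ C2) := h EE (X3 ⧸ C2) (symQuot C2)
  have h3 := totalBettiTwo_congr quotHomeo
  have h4 : (16 : Cardinal) ≤ 8 := by
    calc (16 : Cardinal) ≤ (symQuot C1).twoNumber := sixteen_le
      _ = (symQuot C2).twoNumber := by rw [h1, h2, h3]
      _ ≤ 8 := twoNumber_le
  have h5 : ¬ ((16 : Cardinal) ≤ 8) := by
    have e1 : (16 : Cardinal) = ((16 : ℕ) : Cardinal) := by norm_num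
    have e2 : (8 : Cardinal) = ((8 : ℕ) : Cardinal) := by norm_num
    rw [e1, e2, Nat.cast_le]
    norm_num
  exact h5 h4

end Pool.Agent.Results.MP_efd99a_gt.TwoNumberVsBetti
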